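import Mathlib

set_option autoImplicit false

/-!
# MP_e33218_gt: points of uncountable character in a Valdivia compact line

In a compact line with a dense Σ-subset, a point which is not the limit of a countable set from the
left is isolated from the right.
-/

namespace Pool.Agent.Lib_MP_e33218_ins

open Set Topology Filter

section

variable {L Γ : Type} [LinearOrder L]

/-- no countable set is cofinal in the half line below `a` -/
def UncLeft (a : L) : Prop :=
  ∀ C : Set L, C.Countable → C ⊆ Iio a → ∃ u, u < a ∧ ∀ c ∈ C, c < u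

/-- no countable set is coinitial in the half line above `a` -/
def UncRight (a : L) : Prop :=
  ∀ C : Set L, C.Countable → C ⊆ Ioi a → ∃ u, a < u ∧ ∀ c ∈ C, u < c

variable [TopologicalSpace L] [OrderTopology L]

/-- agreement on a countable set of coordinates to the left of `a` -/
theorem agree_left {h : L → Γ → ℝ} (hc : Continuous h) {a : L} (ha : UncLeft a) {T : Set Γ}
    (hT : T.Countable) : ∃ u, u < a ∧ ∀ x, u < x → x < a → ∀ d ∈ T, h x d = h a d := by
  obtain ⟨u0, hu0, -⟩ := ha ∅ countable_empty (empty_subset _)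
  have hex : ∀ (d : Γ) (n : ℕ), ∃ u, u < a ∧ ∀ x, u < x → x < a →
      |h x d - h a d| < 1 / ((n : ℝ) + 1) := by
    intro d n
    have hcd : Continuous fun x => |h x d - h a d| :=
      (((continuous_apply d).comp hc).sub continuous_const).abs
    have hn : {x | |h x d - h a d| < 1 / ((n : ℝ) + 1)} ∈ 𝓝 a := by
      refine (isOpen_lt hcd continuous_const).mem_nhds ?_
      show |h a d - h a d| < 1 / ((n : ℝ) + 1)
      rw [sub_self, abs_zero]
      positivity
    obtain ⟨u, hu, hsub⟩ := exists_Ioc_subset_of_mem_nhds hn ⟨u0, hu0⟩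
    exact ⟨u, hu, fun x h1 h2 => hsub ⟨h1, h2.le⟩⟩
  choose u hu1 hu2 using hex
  obtain ⟨v, hv, hv'⟩ := ha (⋃ d ∈ T, ⋃ n, {u d n})
    (hT.biUnion fun d _ => countable_iUnion fun n => countable_singleton _)
    (by
      intro x hx
      simp only [mem_iUnion, mem_singleton_iff] at hx
      obtain ⟨d, _, n, rfl⟩ := hx
      exact hu1 d n)
  refine ⟨v, hv, fun x hx1 hx2 d hd => ?_⟩
  have hlt : ∀ n : ℕ, |h x d - h a d| < 1 / ((n : ℝ) + 1) := by
    intro n
    refine hu2 d n x ((hv' _ ?_).trans hx1) hx2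
    simp only [mem_iUnion, mem_singleton_iff]
    exact ⟨d, hd, n, rfl⟩
  have h0 : |h x d - h a d| = 0 := by
    by_contra hne
    have hpos : 0 < |h x d - h a d| := lt_of_le_of_ne (abs_nonneg _) (Ne.symm hne)
    obtain ⟨n, hn⟩ := exists_nat_one_div_lt hpos
    exact absurd (hlt n) (not_lt_of_ge hn.le)
  exact sub_eq_zero.1 (abs_eq_zero.1 h0)

/-- a point of the Σ-subset below `a` which agrees with `a` on a countable set -/
theorem pick_left {h : L → Γ → ℝ} (hc : Continuous h)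
    (hd : Dense (h ⁻¹' {x | {γ | x γ ≠ 0}.Countable})) {a : L} (ha : UncLeft a) {T : Set Γ}
    (hT : T.Countable) : ∃ x, x < a ∧ {γ | h x γ ≠ 0}.Countable ∧ ∀ d ∈ T, h x d = h a d := by
  obtain ⟨u, hu, hu'⟩ := agree_left hc ha hT
  obtain ⟨v, hv, hv'⟩ := ha {u} (countable_singleton u) (by simpa using hu)
  obtain ⟨x, hx, hxA⟩ := hd.inter_open_nonempty (Ioo u a) isOpen_Ioo ⟨v, hv' u rfl, hv⟩
  exact ⟨x, hx.2, hxA, hu' x hx.1 hx.2⟩

theorem pick_right {h : L → Γ → ℝ} (hc : Continuous h)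
    (hd : Dense (h ⁻¹' {x | {γ | x γ ≠ 0}.Countable})) {a : L} (ha : UncRight a) {T : Set Γ}
    (hT : T.Countable) : ∃ x, a < x ∧ {γ | h x γ ≠ 0}.Countable ∧ ∀ d ∈ T, h x d = h a d := by
  have ha' : UncLeft (L := Lᵒᵈ) (OrderDual.toDual a) := by
    intro C hC hCa
    exact ha (OrderDual.toDual ⁻¹' C) hC hCa
  obtain ⟨x, h1, h2, h3⟩ := pick_left (L := Lᵒᵈ) (Γ := Γ)
    (h := fun y => h (OrderDual.ofDual y)) (hc.comp continuous_ofDual) hd ha' hT
  exact ⟨OrderDual.ofDual x, h1, h2, h3⟩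

omit [LinearOrder L] [OrderTopology L] in
/-- closing off: common cluster points -/
theorem lim_two [CompactSpace L] {h : L → Γ → ℝ} (hc : Continuous h) {a : L}
    (F G : {T : Set Γ // T.Countable} → L)
    (hF1 : ∀ T, {γ | h (F T) γ ≠ 0}.Countable) (hF2 : ∀ T, ∀ d ∈ T.1, h (F T) d = h a d)
    (hG1 : ∀ T, {γ | h (G T) γ ≠ 0}.Countable) (hG2 : ∀ T, ∀ d ∈ T.1, h (G T) d = h a d)
    (T0 : {T : Set Γ // T.Countable}) :
    ∃ (T : Set Γ) (x y : L), T0.1 ⊆ T ∧
      (∀ d ∈ T, h x d = h a d) ∧ (∀ d ∉ T, h x d = 0) ∧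
      (∀ d ∈ T, h y d = h a d) ∧ (∀ d ∉ T, h y d = 0) ∧
      (∃ C : Set L, C.Countable ∧ C ⊆ range F ∧ x ∈ closure C) ∧
      (∃ C : Set L, C.Countable ∧ C ⊆ range G ∧ y ∈ closure C) := by
  let S : ℕ → {T : Set Γ // T.Countable} := fun n => Nat.rec T0
    (fun _ T => ⟨T.1 ∪ ({γ | h (F T) γ ≠ 0} ∪ {γ | h (G T) γ ≠ 0}),
      T.2.union ((hF1 T).union (hG1 T))⟩) n
  have hS : ∀ n, (S (n + 1)).1 = (S n).1 ∪ ({γ | h (F (S n)) γ ≠ 0} ∪ {γ | h (G (S n)) γ ≠ 0}) :=
    fun n => rfl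
  have hSm : Monotone fun n => (S n).1 := by
    refine monotone_nat_of_le_succ fun n => ?_
    show (S n).1 ⊆ (S (n + 1)).1
    rw [hS]
    exact subset_union_left
  have key : ∀ (H : {T : Set Γ // T.Countable} → L), (∀ n, {γ | h (H (S n)) γ ≠ 0} ⊆ (S (n+1)).1) →
      (∀ T, ∀ d ∈ T.1, h (H T) d = h a d) →
      ∃ x : L, (∀ d ∈ ⋃ n, (S n).1, h x d = h a d) ∧ (∀ d ∉ ⋃ n, (S n).1, h x d = 0) ∧
        ∃ C : Set L, C.Countable ∧ C ⊆ range H ∧ x ∈ closure C := by
    intro H hH1 hH2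
    obtain ⟨x, hx⟩ := exists_clusterPt_of_compactSpace (Filter.map (fun n => H (S n)) atTop)
    have hcl : ∀ s : Set L, IsClosed s → (∀ᶠ n in atTop, H (S n) ∈ s) → x ∈ s := by
      intro s hs hev
      refine isClosed_iff_clusterPt.1 hs x (hx.mono ?_)
      rw [le_principal_iff]
      exact hev
    refine ⟨x, ?_, ?_, range (fun n => H (S n)), countable_range _, ?_, ?_⟩
    · intro d hd
      obtain ⟨m, hm⟩ := mem_iUnion.1 hd
      refine hcl {x | h x d = h a d}
        (isClosed_eq ((continuous_apply d).comp hc) continuous_const) ?_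
      filter_upwards [eventually_ge_atTop m] with n hn
      exact hH2 _ d (hSm hn hm)
    · intro d hd
      refine hcl {x | h x d = 0} (isClosed_eq ((continuous_apply d).comp hc) continuous_const) ?_
      refine Filter.Eventually.of_forall fun n => ?_
      show h (H (S n)) d = 0
      by_contra hne
      exact hd (mem_iUnion.2 ⟨n + 1, hH1 n hne⟩)
    · rintro _ ⟨n, rfl⟩
      exact ⟨_, rfl⟩
    · exact hcl _ isClosed_closure (Filter.Eventually.of_forall fun n =>
        subset_closure ⟨n, rfl⟩)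
  obtain ⟨x, hx1, hx2, hx3⟩ := key F (fun n => by
    rw [hS]; exact fun γ hγ => Or.inr (Or.inl hγ)) hF2
  obtain ⟨y, hy1, hy2, hy3⟩ := key G (fun n => by
    rw [hS]; exact fun γ hγ => Or.inr (Or.inr hγ)) hG2
  exact ⟨⋃ n, (S n).1, x, y, subset_iUnion (fun n => (S n).1) 0, hx1, hx2, hy1, hy2, hx3, hy3⟩

/-- **Key lemma.** A point with uncountable character from the left is isolated from the right. -/
theorem isolated_right [CompactSpace L] {h : L → Γ → ℝ} (hc : Continuous h)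
    (hi : Function.Injective h) (hd : Dense (h ⁻¹' {x | {γ | x γ ≠ 0}.Countable})) {a : L}
    (ha : UncLeft a) : (∀ x, x ≤ a) ∨ ∃ q, a ⋖ q := by
  by_contra hcon
  push Not at hcon
  obtain ⟨⟨y0, hy0⟩, hnc⟩ := hcon
  have hbt : ∀ y, a < y → ∃ z, a < z ∧ z < y := by
    intro y hy
    have := hnc y
    rw [not_covBy_iff hy] at this
    obtain ⟨c, h1, h2⟩ := this
    exact ⟨c, h1, h2⟩
  -- limits from the left stay away from `a`
  have hstay : ∀ (C : Set L) (x : L), C.Countable → C ⊆ Iio a → x ∈ closure C → x < a := by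
    intro C x hC hCa hx
    obtain ⟨u, hu, hu'⟩ := ha C hC hCa
    have : x ∈ Iic u := by
      have h1 : closure C ⊆ Iic u := closure_minimal (fun c hc => (hu' c hc).le) isClosed_Iic
      exact h1 hx
    exact lt_of_le_of_lt this hu
  have hexF : ∀ T : {T : Set Γ // T.Countable}, ∃ x, x < a ∧ {γ | h x γ ≠ 0}.Countable ∧
      ∀ d ∈ T.1, h x d = h a d := fun T => pick_left hc hd ha T.2
  choose F hF0 hF1 hF2 using hexF
  by_cases hr : UncRight a
  · have hexG : ∀ T : {T : Set Γ // T.Countable}, ∃ x, a < x ∧ {γ | h x γ ≠ 0}.Countable ∧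
        ∀ d ∈ T.1, h x d = h a d := fun T => pick_right hc hd hr T.2
    choose G hG0 hG1 hG2 using hexG
    obtain ⟨T, x, y, -, hx1, hx2, hy1, hy2, ⟨C, hC1, hC2, hC3⟩, ⟨C', hC'1, hC'2, hC'3⟩⟩ :=
      lim_two hc F G hF1 hF2 hG1 hG2 ⟨∅, countable_empty⟩
    have hxy : x = y := by
      apply hi
      funext d
      by_cases hdT : d ∈ T
      · rw [hx1 d hdT, hy1 d hdT]
      · rw [hx2 d hdT, hy2 d hdT]
    have h1 : x < a := hstay C x hC1 (by
      intro c hc'
      obtain ⟨T', rfl⟩ := hC2 hc'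
      exact hF0 T') hC3
    have h2 : a ≤ y := by
      have : closure C' ⊆ Ici a := closure_minimal (by
        intro c hc'
        obtain ⟨T', rfl⟩ := hC'2 hc'
        exact (hG0 T').le) isClosed_Ici
      exact this hC'3
    rw [hxy] at h1
    exact absurd h1 (not_lt_of_ge h2)
  · unfold UncRight at hr
    push Not at hr
    obtain ⟨C, hC, hCa, hco⟩ := hr
    have hex : ∀ c : C, ∃ r, a < r ∧ r < c.1 ∧ {γ | h r γ ≠ 0}.Countable := by
      intro c
      obtain ⟨z, hz1, hz2⟩ := hbt c.1 (hCa c.2)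
      obtain ⟨r, hr, hrA⟩ := hd.inter_open_nonempty (Ioo a c.1) isOpen_Ioo ⟨z, hz1, hz2⟩
      exact ⟨r, hr.1, hr.2, hrA⟩
    choose r hr1 hr2 hr3 using hex
    have : Countable C := hC.to_subtype
    have hacl : a ∈ closure (range r) := by
      rw [mem_closure_iff_nhds]
      intro s hs
      obtain ⟨v, hv, hvs⟩ := exists_Ico_subset_of_mem_nhds hs ⟨y0, hy0⟩
      obtain ⟨c, hc1, hc2⟩ := hco v hv
      exact ⟨r ⟨c, hc1⟩, hvs ⟨(hr1 _).le, (hr2 _).trans_le hc2⟩, ⟨_, rfl⟩⟩
    have hsupp : {γ | h a γ ≠ 0} ⊆ ⋃ c, {γ | h (r c) γ ≠ 0} := by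
      intro d hda
      by_contra hnot
      have hz : closure (range r) ⊆ {x | h x d = 0} := by
        refine closure_minimal ?_
          (isClosed_eq ((continuous_apply d).comp hc) continuous_const)
        rintro _ ⟨c, rfl⟩
        by_contra hne
        exact hnot (mem_iUnion.2 ⟨c, hne⟩)
      exact hda (hz hacl)
    have hsa : {γ | h a γ ≠ 0}.Countable := (countable_iUnion hr3).mono hsupp
    obtain ⟨T, x, y, hT, hx1, hx2, -, -, ⟨C', hC'1, hC'2, hC'3⟩, -⟩ :=
      lim_two hc F F hF1 hF2 hF1 hF2 ⟨_, hsa⟩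
    have hxa : x = a := by
      apply hi
      funext d
      by_cases hdT : d ∈ T
      · exact hx1 d hdT
      · rw [hx2 d hdT]
        by_contra hne
        exact hdT (hT (fun h0 => hne h0.symm))
    have h1 : x < a := hstay C' x hC'1 (by
      intro c hc'
      obtain ⟨T', rfl⟩ := hC'2 hc'
      exact hF0 T') hC'3
    exact absurd hxa h1.ne

end

end Pool.Agent.Lib_MP_e33218_ins
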