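import Pool.Agent.Lib_MP_e33218_ins.Char

set_option autoImplicit false

/-!
# MP_e33218_gt: there are at most `ℵ₁` points of uncountable character
-/

namespace Pool.Agent.Lib_MP_e33218_ins

open Set Topology Filter

section

variable {K : Type} [LinearOrder K] [TopologicalSpace K] [OrderTopology K]

/-- a point of uncountable character is uncountable from one side -/
theorem unc_of_char {x : K} (hx : ¬ (𝓝 x).IsCountablyGenerated) : UncLeft x ∨ UncRight x := by
  by_contra hcon
  push Not at hcon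
  obtain ⟨h1, h2⟩ := hcon
  unfold UncLeft at h1
  unfold UncRight at h2
  push Not at h1 h2
  obtain ⟨C, hC, hCx, hco⟩ := h1
  obtain ⟨C', hC', hCx', hco'⟩ := h2
  apply hx
  have e : 𝓝 x = (⨅ c ∈ C, 𝓟 (Ioi c)) ⊓ (⨅ c ∈ C', 𝓟 (Iio c)) := by
    rw [nhds_eq_order]
    apply le_antisymm
    · refine inf_le_inf ?_ ?_
      · exact le_iInf₂ fun c hc => iInf₂_le c (hCx hc)
      · exact le_iInf₂ fun c hc => iInf₂_le c (hCx' hc)
    · refine inf_le_inf ?_ ?_
      · refine le_iInf₂ fun u hu => ?_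
        obtain ⟨c, hc, hc'⟩ := hco u hu
        exact (iInf₂_le c hc).trans (principal_mono.2 (Ioi_subset_Ioi hc'))
      · refine le_iInf₂ fun u hu => ?_
        obtain ⟨c, hc, hc'⟩ := hco' u hu
        exact (iInf₂_le c hc).trans (principal_mono.2 (Iio_subset_Iio hc'))
  rw [e]
  have : Countable C := hC.to_subtype
  have : Countable C' := hC'.to_subtype
  rw [iInf_subtype', iInf_subtype']
  infer_instance

variable {L : Type} [LinearOrder L] [TopologicalSpace L] [OrderTopology L] [CompactSpace L]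

/-- the points of `K` which are uncountable from the left are images of left end points of jumps -/
theorem left_image {Γ : Type} {h : L → Γ → ℝ} (hc : Continuous h)
    (hi : Function.Injective h) (hd : Dense (h ⁻¹' {x | {γ | x γ ≠ 0}.Countable}))
    {g : L → K} (hg : Continuous g) (hs : Function.Surjective g) (hm : Monotone g) {x : K}
    (hx : UncLeft x) : ∃ a : L, ((∀ y, y ≤ a) ∨ ∃ q, a ⋖ q) ∧ g a = x := by
  have hcl : IsCompact (g ⁻¹' {x}) := (isClosed_singleton.preimage hg).isCompact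
  obtain ⟨a, ha, hmin⟩ := hcl.exists_isLeast (by
    obtain ⟨y, hy⟩ := hs x
    exact ⟨y, hy⟩)
  have hga : g a = x := ha
  refine ⟨a, isolated_right hc hi hd ?_, hga⟩
  intro C hC hCa
  obtain ⟨u, hu, hu'⟩ := hx (g '' C) (hC.image g) (by
    rintro _ ⟨c, hc', rfl⟩
    have h1 : g c ≤ x := by rw [← hga]; exact hm (hCa hc').le
    refine lt_of_le_of_ne h1 fun h2 => ?_
    exact absurd (hmin h2) (not_le_of_gt (hCa hc')))
  obtain ⟨l, hl⟩ := hs u
  refine ⟨l, ?_, fun c hc' => ?_⟩
  · by_contra hlt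
    have : g a ≤ g l := hm (le_of_not_gt hlt)
    rw [hga, hl] at this
    exact absurd hu (not_lt_of_ge this)
  · by_contra hlt
    have : g l ≤ g c := hm (le_of_not_gt hlt)
    rw [hl] at this
    exact absurd (hu' _ ⟨c, hc', rfl⟩) (not_lt_of_ge this)

theorem right_image {Γ : Type} {h : L → Γ → ℝ} (hc : Continuous h)
    (hi : Function.Injective h) (hd : Dense (h ⁻¹' {x | {γ | x γ ≠ 0}.Countable}))
    {g : L → K} (hg : Continuous g) (hs : Function.Surjective g) (hm : Monotone g) {x : K}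
    (hx : UncRight x) : ∃ a : L, ((∀ y, a ≤ y) ∨ ∃ q, q ⋖ a) ∧ g a = x := by
  have hx' : UncLeft (L := Kᵒᵈ) (OrderDual.toDual x) := by
    intro C hC hCa
    exact hx (OrderDual.toDual ⁻¹' C) hC hCa
  have hLd : CompactSpace Lᵒᵈ := inferInstanceAs (CompactSpace L)
  obtain ⟨a, h1, h2⟩ := left_image (K := Kᵒᵈ) (L := Lᵒᵈ) (Γ := Γ)
    (h := fun y => h (OrderDual.ofDual y)) (hc.comp continuous_ofDual)
    (fun y z hyz => hi hyz) hd (g := fun y => OrderDual.toDual (g (OrderDual.ofDual y)))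
    (continuous_toDual.comp (hg.comp continuous_ofDual)) hs hm.dual hx'
  refine ⟨OrderDual.ofDual a, ?_, h2⟩
  rcases h1 with h1 | ⟨q, hq⟩
  · exact Or.inl h1
  · exact Or.inr ⟨OrderDual.ofDual q, (toDual_covBy_toDual_iff (a := OrderDual.ofDual q)
      (b := OrderDual.ofDual a)).1 hq⟩

end

section

variable {D : Type} [LinearOrder D]

theorem lowerSet_covBy {p q : LowerSet D} (h : p ⋖ q) :
    ∃ d : D, p = LowerSet.Iio d ∧ q = LowerSet.Iic d := by
  obtain ⟨d, hd1, hd2⟩ := Set.not_subset.1 (show ¬ (q : Set D) ⊆ p from fun h' =>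
    not_le_of_gt h.lt h')
  have h1 : p ≤ LowerSet.Iio d := by
    intro x hx
    by_contra hlt
    exact hd2 (p.lower (le_of_not_gt hlt) hx)
  have h2 : LowerSet.Iic d ≤ q := fun x hx => q.lower hx hd1
  have h3 : LowerSet.Iio d < LowerSet.Iic d := by
    refine lt_of_le_of_ne (fun x hx => le_of_lt hx) fun he => ?_
    have : d ∈ LowerSet.Iio d := by rw [he]; exact le_refl d
    exact lt_irrefl d this
  refine ⟨d, ?_, ?_⟩
  · by_contra hne
    exact h.2 (lt_of_le_of_ne h1 hne) (h3.trans_le h2)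
  · by_contra hne
    exact h.2 (h1.trans_lt h3) (lt_of_le_of_ne h2 (Ne.symm hne))

end

section

variable {K : Type} [LinearOrder K] [TopologicalSpace K] [OrderTopology K]

theorem card_char {D : Type} [LinearOrder D] (hD : Cardinal.mk D ≤ Cardinal.aleph 1)
    [TopologicalSpace (LowerSet D)] [OrderTopology (LowerSet D)] {Γ : Type}
    {h : LowerSet D → Γ → ℝ} (hc : Continuous h)
    (hi : Function.Injective h) (hd : Dense (h ⁻¹' {x | {γ | x γ ≠ 0}.Countable}))
    {g : LowerSet D → K} (hg : Continuous g) (hs : Function.Surjective g) (hm : Monotone g) :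
    Cardinal.mk {x : K | ¬ (𝓝 x).IsCountablyGenerated} ≤ Cardinal.aleph 1 := by
  have hsub : {x : K | ¬ (𝓝 x).IsCountablyGenerated} ⊆
      (g '' ((range fun d : D => LowerSet.Iio d) ∪ (range fun d : D => LowerSet.Iic d))) ∪
        {g ⊤, g ⊥} := by
    intro x hx
    rcases unc_of_char hx with h1 | h1
    · obtain ⟨a, ha, rfl⟩ := left_image hc hi hd hg hs hm h1
      rcases ha with ha | ⟨q, hq⟩
      · have : a = ⊤ := top_le_iff.1 (ha ⊤)
        rw [this]
        exact Or.inr (Or.inl rfl)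
      · obtain ⟨d, hd1, -⟩ := lowerSet_covBy hq
        exact Or.inl ⟨a, Or.inl ⟨d, hd1.symm⟩, rfl⟩
    · obtain ⟨a, ha, rfl⟩ := right_image hc hi hd hg hs hm h1
      rcases ha with ha | ⟨q, hq⟩
      · have : a = ⊥ := le_bot_iff.1 (ha ⊥)
        rw [this]
        exact Or.inr (Or.inr rfl)
      · obtain ⟨d, -, hd1⟩ := lowerSet_covBy hq
        exact Or.inl ⟨a, Or.inr ⟨d, hd1.symm⟩, rfl⟩
  have h0 : Cardinal.aleph0 ≤ Cardinal.aleph 1 := Cardinal.aleph0_le_aleph 1
  refine (Cardinal.mk_le_mk_of_subset hsub).trans ((Cardinal.mk_union_le _ _).trans ?_)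
  refine Cardinal.add_le_of_le h0 ?_ ?_
  · refine Cardinal.mk_image_le.trans ((Cardinal.mk_union_le _ _).trans ?_)
    exact Cardinal.add_le_of_le h0 (Cardinal.mk_range_le.trans hD) (Cardinal.mk_range_le.trans hD)
  · exact ((Cardinal.lt_aleph0_iff_finite.2 (toFinite ({g ⊤, g ⊥} : Set K))).le).trans h0

/-- the subbase given by the cuts `D` -/
def subb (D : Set K) : Set (Set K) :=
  ((range fun d : D => Iio d.1) ∪ (range fun d : D => Ioi d.1)) ∪
    {s | IsOpen s ∧ s ∈ range fun d : D => Ici d.1}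

omit [OrderTopology K] in
theorem card_subb {D : Set K} (hD : Cardinal.mk D ≤ Cardinal.aleph 1) :
    Cardinal.mk (subb D) ≤ Cardinal.aleph 1 := by
  have h0 : Cardinal.aleph0 ≤ Cardinal.aleph 1 := Cardinal.aleph0_le_aleph 1
  refine (Cardinal.mk_union_le _ _).trans (Cardinal.add_le_of_le h0 ?_ ?_)
  · exact (Cardinal.mk_union_le _ _).trans (Cardinal.add_le_of_le h0
      (Cardinal.mk_range_le.trans hD) (Cardinal.mk_range_le.trans hD))
  · refine (Cardinal.mk_le_mk_of_subset (t := range fun d : D => Ici d.1) ?_).trans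
      (Cardinal.mk_range_le.trans hD)
    exact fun s hs => hs.2

theorem subb_generate {D : Set K}
    (h1 : ∀ k, k ∉ D → ∀ u, u < k → ∃ d ∈ D, u < d ∧ d < k) :
    (inferInstance : TopologicalSpace K) = TopologicalSpace.generateFrom (subb D) := by
  have h1' : ∀ k u, u < k → ∃ d ∈ D, u < d ∧ d ≤ k := by
    intro k u hu
    by_cases hk : k ∈ D
    · exact ⟨k, hk, hu, le_rfl⟩
    · obtain ⟨d, hd, hd1, hd2⟩ := h1 k hk u hu
      exact ⟨d, hd, hd1, hd2.le⟩
  apply le_antisymm
  · refine le_generateFrom ?_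
    rintro s ((⟨d, rfl⟩ | ⟨d, rfl⟩) | ⟨hs, -⟩)
    · exact isOpen_Iio
    · exact isOpen_Ioi
    · exact hs
  · refine le_trans ?_ (OrderTopology.topology_eq_generate_intervals (α := K)).symm.le
    refine le_generateFrom ?_
    have hb : ∀ s ∈ subb D, IsOpen[TopologicalSpace.generateFrom (subb D)] s := fun s hs =>
      TopologicalSpace.isOpen_generateFrom_of_mem hs
    rintro s ⟨a, rfl | rfl⟩
    · have e : Ioi a = ⋃₀ {t | t ∈ subb D ∧ t ⊆ Ioi a} := by
        apply subset_antisymm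
        · intro x hx
          have hx' : a < x := hx
          by_cases hcov : a ⋖ x
          · obtain ⟨d, hd, hd1, hd2⟩ := h1' x a hx'
            have hdx : d = x := by
              by_contra hne
              exact hcov.2 hd1 (lt_of_le_of_ne hd2 hne)
            have hI : Ici d = Ioi a := by
              rw [hdx]
              ext y
              refine ⟨fun hy => hx'.trans_le hy, fun hy => ?_⟩
              by_contra hlt
              exact hcov.2 hy (lt_of_not_ge hlt)
            refine ⟨Ici d, ⟨Or.inr ⟨?_, ⟨⟨d, hd⟩, rfl⟩⟩, hI.le⟩, hd2⟩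
            rw [hI]
            exact isOpen_Ioi
          · rw [not_covBy_iff hx'] at hcov
            obtain ⟨v, hv1, hv2⟩ := hcov
            obtain ⟨d, hd, hd1, hd2⟩ := h1' v a hv1
            exact ⟨Ioi d, ⟨Or.inl (Or.inr ⟨⟨d, hd⟩, rfl⟩), fun y hy => hd1.trans hy⟩,
              hd2.trans_lt hv2⟩
        · exact sUnion_subset fun t ht => ht.2
      rw [e]
      exact (TopologicalSpace.generateFrom (subb D)).isOpen_sUnion _ fun t ht => hb t ht.1
    · by_cases ha : a ∈ D
      · exact hb _ (Or.inl (Or.inl ⟨⟨a, ha⟩, rfl⟩))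
      · have e : Iio a = ⋃₀ {t | t ∈ subb D ∧ t ⊆ Iio a} := by
          apply subset_antisymm
          · intro x hx
            obtain ⟨d, hd, hd1, hd2⟩ := h1 a ha x hx
            exact ⟨Iio d, ⟨Or.inl (Or.inl ⟨⟨d, hd⟩, rfl⟩), fun y hy => lt_trans hy hd2⟩, hd1⟩
          · exact sUnion_subset fun t ht => ht.2
        rw [e]
        exact (TopologicalSpace.generateFrom (subb D)).isOpen_sUnion _ fun t ht => hb t ht.1

/-- the weight is at most `ℵ₁` -/
theorem weight {D : Set K} (hD : Cardinal.mk D ≤ Cardinal.aleph 1)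
    (h1 : ∀ k, k ∉ D → ∀ u, u < k → ∃ d ∈ D, u < d ∧ d < k) :
    ∃ B : Set (Set K), TopologicalSpace.IsTopologicalBasis B ∧
      Cardinal.mk B ≤ Cardinal.aleph 1 := by
  have h0 : Cardinal.aleph0 ≤ Cardinal.aleph 1 := Cardinal.aleph0_le_aleph 1
  refine ⟨_, TopologicalSpace.isTopologicalBasis_of_subbasis (subb_generate h1), ?_⟩
  refine (Cardinal.mk_le_mk_of_subset
    (t := range fun l : List (subb D) => ⋂₀ {s | ∃ x ∈ l, x.1 = s}) ?_).trans
    (Cardinal.mk_range_le.trans ?_)
  · rintro _ ⟨f, ⟨hf, hfs⟩, rfl⟩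
    have hfin : Finite f := hf.to_subtype
    obtain ⟨n, ⟨e⟩⟩ := Finite.exists_equiv_fin f
    refine ⟨List.ofFn fun i : Fin n => ⟨(e.symm i).1, hfs (e.symm i).2⟩, ?_⟩
    show ⋂₀ _ = ⋂₀ f
    congr 1
    ext s
    constructor
    · rintro ⟨x, hx, rfl⟩
      obtain ⟨i, rfl⟩ := (List.mem_ofFn' _ _).1 hx
      exact (e.symm i).2
    · intro hs
      refine ⟨⟨s, hfs hs⟩, (List.mem_ofFn' _ _).2 ⟨e ⟨s, hs⟩, ?_⟩, rfl⟩
      simp
  · exact (Cardinal.mk_list_le_max _).trans (max_le h0 (card_subb hD))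

end

end Pool.Agent.Lib_MP_e33218_ins
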