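import Pool.Agent.Lib_MP_e33218_gt.Filt

set_option autoImplicit false

/-!
# MP_e33218_gt: the construction with the set of cuts exposed

Same proofs as in `Lib_MP_e33218_gt` (files CutValdivia and Filt), with the explicit output: the
line is the set of lower sets of a subset `D` of `K`, embedded into `{0,1}^D`.
-/

namespace Pool.Agent.Lib_MP_e33218_ins

open Set Topology
open Pool.Agent.Lib_MP_e33218_gt

section Cut

variable {D : Type} [LinearOrder D]

/-- `LowerSet D` is a Valdivia compactum if `D` carries a good parent function. -/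
theorem lowerSet_valdivia' {Ω : Type*} [LinearOrder Ω] [WellFoundedLT Ω] (ρ : D → Ω)
    (hρc : ∀ e : D, {d | ρ d ≤ ρ e}.Countable)
    (β : D → Option D) (hnone : {d | β d = none}.Countable)
    (hβ : ∀ d z, β d = some z → ρ z < ρ d)
    (hadj : ∀ d z, β d = some z → ∀ e, ρ e < ρ d → ¬ (d < e ∧ e < z) ∧ ¬ (z < e ∧ e < d))
    [TopologicalSpace (LowerSet D)] [OrderTopology (LowerSet D)] :
    Topology.IsEmbedding (coord β) ∧
      Dense ((coord β) ⁻¹' {x | {γ | x γ ≠ 0}.Countable}) := by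
  refine ⟨?_, ?_⟩
  · exact ((continuous_coord β).isClosedEmbedding (coord_injective ρ β hβ)).isEmbedding
  · have hmem : ∀ J : LowerSet D, J ∈ (coord β ⁻¹' {x | {γ | x γ ≠ 0}.Countable}) ↔
        {d | cross β J d}.Countable := by
      intro J
      show {γ | coord β J γ ≠ 0}.Countable ↔ _
      simp only [coord_ne_zero]
    intro I
    rw [mem_closure_iff]
    intro U hU hI
    rcases eq_or_ne I ⊥ with hbot | hbot
    · refine ⟨I, hI, ?_⟩
      rw [hmem]
      refine (Set.countable_empty).mono ?_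
      intro d hd
      have hd' : cross β I d := hd
      rw [hbot] at hd'
      rcases hb : β d with _ | z
      · rw [cross_none hb] at hd'; exact absurd hd' (by simp)
      · rw [cross_some hb] at hd'; exact absurd hd' (by simp)
    rcases eq_or_ne I ⊤ with htop | htop
    · refine ⟨I, hI, ?_⟩
      rw [hmem]
      refine hnone.mono ?_
      intro d hd
      have hd' : cross β I d := hd
      rw [htop] at hd'
      rcases hb : β d with _ | z
      · exact hb
      · rw [cross_some hb] at hd'; exact absurd hd' (by simp)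
    obtain ⟨l, u, hlI, hIu⟩ := mem_nhds_iff_exists_Ioo_subset' ⟨⊥, bot_lt_iff_ne_bot.2 hbot⟩
      ⟨⊤, lt_top_iff_ne_top.2 htop⟩ |>.1 (hU.mem_nhds hI)
    obtain ⟨d₁, h11, h12⟩ := Set.not_subset.1 (show ¬ (I : Set D) ⊆ l from fun h =>
      not_le_of_gt hlI.1 h)
    obtain ⟨d₂, h21, h22⟩ := Set.not_subset.1 (show ¬ (u : Set D) ⊆ I from fun h =>
      not_le_of_gt hlI.2 h)
    have hd : d₁ < d₂ := by
      by_contra hlt
      exact h22 (I.lower (le_of_not_gt hlt) h11)
    obtain ⟨J, C, hC, hJ1, hJ2, hJ⟩ := exists_good_cut hd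
    refine ⟨J, hIu ⟨?_, ?_⟩, ?_⟩
    · exact lt_of_not_ge fun h => h12 (h hJ1)
    · exact lt_of_not_ge fun h => hJ2 (h h21)
    · rw [hmem]
      exact countable_cross ρ hρc β hnone hadj J C hC hJ

end Cut

variable {K : Type} [LinearOrder K]

variable [TopologicalSpace K] [OrderTopology K] [CompactSpace K]

theorem exists_line' (N : Om → Set K) (hN : Monotone N) (hctb : ∀ j, (N j).Countable)
    (b : K) (hb : ∀ k, b ≤ k)
    (hA : ∀ j0 : Om, (∃ j, j < j0) → ∀ k, k ∉ MM N j0 →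
      (∀ n ∈ MM N j0, n < k → ∃ m ∈ MM N j0, n < m ∧ m < k) →
      (∀ n ∈ MM N j0, k < n → ∃ m ∈ MM N j0, k < m ∧ m < n) →
      (∀ u, u < k → ∃ m ∈ MM N j0, u < m ∧ m < k) ∧
      (∀ v, k < v → ∃ m ∈ MM N j0, k < m ∧ m < v))
    (hB : ∀ k, (∀ j, k ∉ N j) → ∀ u, u < k → ∃ m, (∃ j, m ∈ N j) ∧ u < m ∧ m < k) :
    ∃ D : Set K, D ⊆ (⋃ j, N j) ∧ (∀ k, k ∉ D → ∀ u, u < k → ∃ d ∈ D, u < d ∧ d < k) ∧
      ∀ [TopologicalSpace (LowerSet D)] [OrderTopology (LowerSet D)],
        (∃ h : LowerSet D → (D → ℝ), Topology.IsEmbedding h ∧ (∀ I d, h I d = 0 ∨ h I d = 1) ∧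
          Dense (h ⁻¹' {x | {γ | x γ ≠ 0}.Countable})) ∧
        ∃ g : LowerSet D → K, Continuous g ∧ Function.Surjective g ∧ Monotone g ∧
          ∀ I : LowerSet D, IsLUB (insert b (Subtype.val '' (I : Set D))) (g I) := by
  obtain ⟨rk, hrk1, hrk2⟩ := exists_rank N
  have hMM : ∀ {m : K} {j0 : Om}, m ∈ MM N j0 → rk m < j0 := by
    rintro m j0 ⟨j, hj, hm⟩
    exact (hrk1 m j hm).trans_lt hj
  have hMM' : ∀ {m : K} {j0 : Om}, (∃ j, m ∈ N j) → rk m < j0 → m ∈ MM N j0 := by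
    intro m j0 hm hlt
    exact ⟨rk m, hlt, hrk2 m hm⟩
  have hself : ∀ k, k ∉ MM N (rk k) := fun k hk => lt_irrefl _ (hMM hk)
  -- the set `D`
  obtain ⟨D, hD⟩ : ∃ D : Set K, ∀ k, k ∈ D ↔ ((∃ j, k ∈ N j) ∧
      ((∀ j, rk k ≤ j) ∨ ∃ z ∈ MM N (rk k), Nr (MM N (rk k)) z k)) :=
    ⟨{k | _}, fun k => Iff.rfl⟩
  -- points outside `D` are two-sided limits
  have hlim : ∀ k, (∃ j, k ∈ N j) → k ∉ D → (∀ u, u < k → ∃ m ∈ MM N (rk k), u < m ∧ m < k) ∧
      (∀ v, k < v → ∃ m ∈ MM N (rk k), k < m ∧ m < v) := by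
    intro k hk hkD
    rw [hD] at hkD
    have h1 : ¬ ((∀ j, rk k ≤ j) ∨ ∃ z ∈ MM N (rk k), Nr (MM N (rk k)) z k) :=
      fun h => hkD ⟨hk, h⟩
    push Not at h1
    obtain ⟨⟨j, hj⟩, h2⟩ := h1
    refine hA (rk k) ⟨j, hj⟩ k (hself k) ?_ ?_
    · intro n hn hnk
      by_contra hcon
      push Not at hcon
      refine h2 n hn (Or.inl ⟨hnk, fun m hm hmk => ?_⟩)
      by_contra hlt
      exact absurd hmk (not_lt_of_ge (hcon m hm (lt_of_not_ge hlt)))
    · intro n hn hnk
      by_contra hcon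
      push Not at hcon
      refine h2 n hn (Or.inr ⟨hnk, fun m hm hmk => hcon m hm hmk⟩)
  -- neighbours lie in `D`
  have hnb : ∀ k, ∀ z ∈ MM N (rk k), Nr (MM N (rk k)) z k → z ∈ D := by
    intro k z hz hnr
    have hzN : ∃ j, z ∈ N j := ⟨hz.choose, hz.choose_spec.2⟩
    by_contra hzD
    obtain ⟨h1, h2⟩ := hlim z hzN hzD
    have hsub : ∀ m ∈ MM N (rk z), m ∈ MM N (rk k) := by
      rintro m ⟨j, hj, hm⟩
      exact ⟨j, hj.trans (hMM hz), hm⟩
    rcases hnr with ⟨h3, h4⟩ | ⟨h3, h4⟩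
    · obtain ⟨m, hm, hm1, hm2⟩ := h2 k h3
      exact absurd (h4 m (hsub m hm) hm2) (not_le_of_gt hm1)
    · obtain ⟨m, hm, hm1, hm2⟩ := h1 k h3
      exact absurd (h4 m (hsub m hm) hm1) (not_le_of_gt hm2)
  -- density
  have hdense : ∀ k, k ∉ D → ∀ u, u < k → ∃ d ∈ D, u < d ∧ d < k := by
    intro k hk u huk
    have hex : ∃ m, (∃ j, m ∈ N j) ∧ u < m ∧ m < k := by
      by_cases hkN : ∃ j, k ∈ N j
      · obtain ⟨m, ⟨j, hj, hm⟩, hm1, hm2⟩ := (hlim k hkN hk).1 u huk
        exact ⟨m, ⟨j, hm⟩, hm1, hm2⟩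
      · push Not at hkN
        exact hB k hkN u huk
    obtain ⟨e, ⟨he, he1, he2⟩, hmin⟩ := WellFounded.has_min
      (InvImage.wf rk (wellFounded_lt (α := Om))) {m | (∃ j, m ∈ N j) ∧ u < m ∧ m < k} hex
    refine ⟨e, ?_, he1, he2⟩
    by_contra heD
    obtain ⟨m, hm, hm1, hm2⟩ := (hlim e he heD).1 u he1
    exact hmin m ⟨⟨hm.choose, hm.choose_spec.2⟩, hm1, hm2.trans he2⟩ (hMM hm)
  have hDN : ∀ d : D, ∃ j, d.1 ∈ N j := fun d => ((hD d.1).1 d.2).1
  -- the parent function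
  have hβex : ∀ d : D, ∃ o : Option D, (o = none → ∀ j, rk d.1 ≤ j) ∧
      (∀ z : D, o = some z → z.1 ∈ MM N (rk d.1) ∧ Nr (MM N (rk d.1)) z.1 d.1) := by
    intro d
    rcases ((hD d.1).1 d.2).2 with h | ⟨z, hz, hnr⟩
    · exact ⟨none, fun _ => h, fun z hz => by simp at hz⟩
    · refine ⟨some ⟨z, hnb d.1 z hz hnr⟩, fun h => by simp at h, ?_⟩
      intro z' hz'
      have : (⟨z, hnb d.1 z hz hnr⟩ : D) = z' := Option.some.inj hz'
      rw [← this]
      exact ⟨hz, hnr⟩
  choose β hβ1 hβ2 using hβex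
  refine ⟨D, fun k hk => Set.mem_iUnion.2 ((hD k).1 hk).1, hdense, ?_⟩
  intro τ hτ
  have hval := lowerSet_valdivia' (D := D) (fun d : D => rk d.1)
    (by
      intro e
      refine ((hctb (rk e.1)).preimage Subtype.val_injective).mono ?_
      intro d hd
      exact hN hd (hrk2 d.1 (hDN d)))
    β
    (by
      refine ((hctb ⟨0, Ordinal.omega_pos 1⟩).preimage Subtype.val_injective).mono ?_
      intro d hd
      exact hN (hβ1 d hd _) (hrk2 d.1 (hDN d)))
    (by
      intro d z hz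
      exact hMM (hβ2 d z hz).1)
    (by
      intro d z hz e he
      have heM : e.1 ∈ MM N (rk d.1) := hMM' (hDN e) he
      rcases (hβ2 d z hz).2 with ⟨h1, h2⟩ | ⟨h1, h2⟩
      · refine ⟨fun h => ?_, fun h => ?_⟩
        · exact absurd (h.1.trans h.2) (not_lt_of_gt h1)
        · exact absurd (h2 e.1 heM h.2) (not_le_of_gt h.1)
      · refine ⟨fun h => ?_, fun h => ?_⟩
        · exact absurd (h2 e.1 heM h.1) (not_le_of_gt h.2)
        · exact absurd (h.1.trans h.2) (not_lt_of_gt h1))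
  -- the map
  have hgex : ∀ I : LowerSet D, ∃ a, IsLUB (insert b (Subtype.val '' (I : Set D))) a := by
    intro I
    obtain ⟨a, _, hlub⟩ := (isClosed_closure (s := insert b (Subtype.val '' (I : Set D)))
      ).isCompact.exists_isLUB (Set.insert_nonempty _ _).closure
    exact ⟨a, (isLUB_iff_of_subset_of_subset_closure subset_closure le_rfl).2 hlub⟩
  choose g hg using hgex
  have hgm : Monotone g := by
    intro I J hIJ
    exact (hg I).mono (hg J) (Set.insert_subset_insert (Set.image_mono hIJ))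
  have hge : ∀ (I : LowerSet D) (d : D), d ∈ I → d.1 ≤ g I := fun I d hd =>
    (hg I).1 (Or.inr ⟨d, hd, rfl⟩)
  have hle : ∀ (I : LowerSet D) (u : K), (∀ d ∈ I, (d : D).1 ≤ u) → g I ≤ u := by
    intro I u hu
    refine (hg I).2 ?_
    rintro x (hx | ⟨d, hd, rfl⟩)
    · rw [hx]; exact hb u
    · exact hu d hd
  refine ⟨⟨coord β, hval.1, fun I d => ?_, hval.2⟩, g, ?_, ?_, hgm, hg⟩
  · unfold coord
    split_ifs
    · exact Or.inr rfl
    · exact Or.inl rfl
  · rw [OrderTopology.continuous_iff]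
    intro k
    constructor
    · have he : g ⁻¹' Ioi k = ⋃ d ∈ {d : D | k < d.1}, {I : LowerSet D | d ∈ I} := by
        ext I
        simp only [Set.mem_preimage, Set.mem_Ioi, Set.mem_iUnion, Set.mem_ofPred_eq]
        constructor
        · intro h
          obtain ⟨x, hx, hx'⟩ := (lt_isLUB_iff (hg I)).1 h
          rcases hx with hx | ⟨d, hd, rfl⟩
          · rw [hx] at hx'
            exact absurd hx' (not_lt_of_ge (hb k))
          · exact ⟨d, hx', hd⟩
        · rintro ⟨d, hd, hd'⟩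
          exact hd.trans_le (hge I d hd')
      rw [he]
      exact isOpen_biUnion fun d _ => (isClopen_mem d).isOpen
    · rw [isOpen_iff_mem_nhds]
      intro I hI
      have hIk : g I < k := hI
      by_cases hcase : ∃ d : D, d ∉ I ∧ d.1 < k
      · obtain ⟨d, hd, hdk⟩ := hcase
        refine Filter.mem_of_superset ((isClopen_mem d).isClosed.isOpen_compl.mem_nhds hd) ?_
        intro J hJ
        have hJ' : d ∉ J := hJ
        refine lt_of_le_of_lt (hle J d.1 fun e he => ?_) hdk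
        by_contra hlt
        exact hJ' (J.lower (le_of_not_ge hlt) he)
      · push Not at hcase
        have hkD : k ∈ D := by
          by_contra hkD
          obtain ⟨d, hd, hd1, hd2⟩ := hdense k hkD (g I) hIk
          by_cases hdI : (⟨d, hd⟩ : D) ∈ I
          · exact absurd (hge I ⟨d, hd⟩ hdI) (not_le_of_gt hd1)
          · exact absurd (hcase ⟨d, hd⟩ hdI) (not_le_of_gt hd2)
        have hkI : (⟨k, hkD⟩ : D) ∉ I := fun h => absurd (hge I _ h) (not_le_of_gt hIk)
        refine Filter.mem_of_superset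
          ((isClopen_mem (⟨k, hkD⟩ : D)).isClosed.isOpen_compl.mem_nhds hkI) ?_
        intro J hJ
        have hJ' : (⟨k, hkD⟩ : D) ∉ J := hJ
        refine lt_of_le_of_lt (hle J (g I) fun e he => ?_) hIk
        have hek : e.1 < k := by
          by_contra hlt
          exact hJ' (J.lower (show (⟨k, hkD⟩ : D) ≤ e from le_of_not_gt hlt) he)
        refine hge I e ?_
        by_contra heI
        exact absurd (hcase e heI) (not_le_of_gt hek)
  · intro k
    refine ⟨⟨{d : D | d.1 ≤ k}, fun d e hed hd => le_trans hed hd⟩, ?_⟩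
    refine (hg _).unique ⟨?_, ?_⟩
    · rintro x (hx | ⟨d, hd, rfl⟩)
      · rw [hx]; exact hb k
      · exact hd
    · intro u hu
      by_contra hlt
      have hlt' : u < k := lt_of_not_ge hlt
      by_cases hkD : k ∈ D
      · exact absurd (hu (Or.inr ⟨⟨k, hkD⟩, le_refl k, rfl⟩)) hlt
      · obtain ⟨d, hd, hd1, hd2⟩ := hdense k hkD u hlt'
        exact absurd (hu (Or.inr ⟨⟨d, hd⟩, hd2.le, rfl⟩)) (not_le_of_gt hd1)


end Pool.Agent.Lib_MP_e33218_ins
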