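import Pool.Agent.Lib_MP_e33218_gt.Assemble
import Pool.Agent.Lib_MP_e33218_ins.Line

set_option autoImplicit false

/-!
# MP_e33218_gt: the main theorem with the set of cuts exposed
-/

namespace Pool.Agent.Lib_MP_e33218_ins

open Set Topology
open Pool.Agent.Lib_MP_e33218_gt

/-- a set covered by `ω₁` countable sets has at most `ℵ₁` elements -/
theorem card_le_of_union {K : Type} (N : Om → Set K) (hN : ∀ j, (N j).Countable) (D : Set K)
    (hD : D ⊆ ⋃ j, N j) : Cardinal.mk D ≤ Cardinal.aleph 1 := by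
  have h1 : Cardinal.mk D ≤ Cardinal.mk (⋃ j, N j : Set K) := Cardinal.mk_le_mk_of_subset hD
  refine h1.trans ?_
  have h2 := Cardinal.mk_iUnion_le_lift N
  have h3 : (⨆ i, Cardinal.lift.{1, 0} (Cardinal.mk (N i))) ≤ Cardinal.aleph0 := by
    refine ciSup_le' fun i => ?_
    rw [Cardinal.lift_le_aleph0]
    exact (Cardinal.le_aleph0_iff_set_countable).2 (hN i)
  have h4 : Cardinal.lift.{0, 1} (Cardinal.mk Om) = Cardinal.lift.{1, 0} (Cardinal.aleph.{0} 1) := by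
    rw [Cardinal.lift_id'.{0, 1}, Cardinal.mk_Iio_ordinal.{0}, Ordinal.card_omega.{0}]
  rw [h4] at h2
  have h5 : Cardinal.lift.{1, 0} (Cardinal.aleph.{0} 1) * (⨆ i, Cardinal.lift.{1, 0} (Cardinal.mk (N i)))
      ≤ Cardinal.lift.{1, 0} (Cardinal.aleph.{0} 1) := by
    refine (mul_le_mul' le_rfl h3).trans ?_
    rw [← Cardinal.lift_aleph0.{1, 0}, ← Cardinal.lift_mul, Cardinal.aleph_mul_aleph0]
  exact Cardinal.lift_le.1 (h2.trans h5)

theorem main_theorem' (K : Type) [LinearOrder K] [TopologicalSpace K] [OrderTopology K]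
    [CompactSpace K] (V Γ : Type) [TopologicalSpace V] [CompactSpace V] (h : V → (Γ → ℝ))
    (hemb : Topology.IsEmbedding h) (hd : Dense {v | SC h v})
    (f : V → K) (hf : Continuous f) (hfs : Function.Surjective f) (b : K) (hb : ∀ k, b ≤ k) :
    ∃ D : Set K, Cardinal.mk D ≤ Cardinal.aleph 1 ∧
      (∀ k, k ∉ D → ∀ u, u < k → ∃ d ∈ D, u < d ∧ d < k) ∧
      ∀ [TopologicalSpace (LowerSet D)] [OrderTopology (LowerSet D)],
        (∃ h : LowerSet D → (D → ℝ), Topology.IsEmbedding h ∧ (∀ I d, h I d = 0 ∨ h I d = 1) ∧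
          Dense (h ⁻¹' {x | {γ | x γ ≠ 0}.Countable})) ∧
        ∃ g : LowerSet D → K, Continuous g ∧ Function.Surjective g ∧ Monotone g ∧
          ∀ I : LowerSet D, IsLUB (insert b (Subtype.val '' (I : Set D))) (g I) := by
  have hc : Continuous h := hemb.continuous
  have hi : Function.Injective h := hemb.injective
  have hK : Nonempty K := ⟨b⟩
  obtain ⟨t, -, ht'⟩ := (isCompact_univ (X := K)).exists_isGreatest Set.univ_nonempty
  have ht : ∀ k, k ≤ t := fun k => ht' (Set.mem_univ k)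
  obtain ⟨C, hCm, hCc, hCcl, hC0, hCn⟩ := exists_chain (RS h f)
    ({Sum.inr (Sum.inr b), Sum.inr (Sum.inr t)} : Set (XX h K)) (Set.toFinite _).countable
    Nx Nx_countable
  have hbC : ∀ j, b ∈ Ns (C j) := fun j => hC0 j (Or.inl rfl)
  have htC : ∀ j, t ∈ Ns (C j) := fun j => hC0 j (Or.inr rfl)
  have hNm : Monotone (fun j => Ns (C j)) := fun i j hij x hx => hCm hij hx
  have hGm : Monotone (fun j => Gs (C j)) := fun i j hij x hx => hCm hij hx
  have hcl : ∀ j, Cl h f (Gs (C j)) (Es (C j)) (Ns (C j)) := fun j =>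
    RS_cl (hCcl j) ⟨b, hbC j⟩
  have hctb : ∀ j, (Ns (C j)).Countable := fun j =>
    (hCc j).preimage (Sum.inr_injective.comp Sum.inr_injective)
  have hcard : ∀ D : Set K, D ⊆ (⋃ j, Ns (C j)) → Cardinal.mk D ≤ Cardinal.aleph 1 := by
    intro D hD
    exact card_le_of_union (fun j => Ns (C j)) hctb D hD
  suffices hmain : ∃ D : Set K, D ⊆ (⋃ j, Ns (C j)) ∧
      (∀ k, k ∉ D → ∀ u, u < k → ∃ d ∈ D, u < d ∧ d < k) ∧
      ∀ [TopologicalSpace (LowerSet D)] [OrderTopology (LowerSet D)],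
        (∃ h : LowerSet D → (D → ℝ), Topology.IsEmbedding h ∧ (∀ I d, h I d = 0 ∨ h I d = 1) ∧
          Dense (h ⁻¹' {x | {γ | x γ ≠ 0}.Countable})) ∧
        ∃ g : LowerSet D → K, Continuous g ∧ Function.Surjective g ∧ Monotone g ∧
          ∀ I : LowerSet D, IsLUB (insert b (Subtype.val '' (I : Set D))) (g I) by
    obtain ⟨D, h1, h2, h3⟩ := hmain
    exact ⟨D, hcard D h1, h2, h3⟩
  refine exists_line' (fun j => Ns (C j)) hNm hctb b hb ?_ ?_
  · intro j0 hj0 k hk hnomax hnomin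
    obtain ⟨j1, hj1⟩ := hj0
    have hne : Nonempty (Set.Iio j0) := ⟨⟨j1, hj1⟩⟩
    have hmono : Monotone (fun j : Set.Iio j0 => C j.1) := fun i j hij => hCm hij
    have hS := ReqSys.closed_iUnion (R := RS h f) (S := fun j : Set.Iio j0 => C j.1)
      hmono.directed_le (fun j => hCcl j.1)
    have hMN : MM (fun j => Ns (C j)) j0 = Ns (⋃ j : Set.Iio j0, C j.1) := by
      ext m
      constructor
      · rintro ⟨j, hj, hm⟩
        exact Set.mem_iUnion.2 ⟨⟨j, hj⟩, hm⟩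
      · intro hm
        obtain ⟨j, hj⟩ := Set.mem_iUnion.1 hm
        exact ⟨j.1, j.2, hj⟩
    rw [hMN] at hk hnomax hnomin ⊢
    have hbN : b ∈ Ns (⋃ j : Set.Iio j0, C j.1) := Set.mem_iUnion.2 ⟨⟨j1, hj1⟩, hbC j1⟩
    have htN : t ∈ Ns (⋃ j : Set.Iio j0, C j.1) := Set.mem_iUnion.2 ⟨⟨j1, hj1⟩, htC j1⟩
    have hml := main_lemma hc hi hf hfs hd (RS_cl hS ⟨b, hbN⟩) (RS_lub hS) hk
      ⟨b, hbN, lt_of_le_of_ne (hb k) (fun h => hk (h ▸ hbN))⟩
      ⟨t, htN, lt_of_le_of_ne (ht k) (fun h => hk (h ▸ htN))⟩ hnomax hnomin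
    constructor
    · intro u hu
      obtain ⟨m, hm, hm'⟩ := (lt_isLUB_iff hml.1).1 hu
      exact ⟨m, hm.1, hm', hm.2⟩
    · intro u hu
      obtain ⟨m, hm, hm'⟩ := (isGLB_lt_iff hml.2).1 hu
      exact ⟨m, hm.1, hm.2, hm'⟩
  · intro k hk u hu
    have hOm : Nonempty Om := ⟨⟨0, Ordinal.omega_pos 1⟩⟩
    have hS := ReqSys.closed_iUnion (R := RS h f) (S := C) (J := Om) hCm.directed_le hCcl
    have eN : (⋃ j, Ns (C j)) = Ns (⋃ j, C j) := by
      ext m
      simp [Ns]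
    have eG : (⋃ j, Gs (C j)) = Gs (⋃ j, C j) := by
      ext m
      simp [Gs]
    have eE : (⋃ j, Es (C j)) = Es (⋃ j, C j) := by
      ext m
      constructor
      · intro hm
        obtain ⟨j, hv, hj⟩ := Set.mem_iUnion.1 hm
        exact ⟨hv, Set.mem_iUnion.2 ⟨j, hj⟩⟩
      · rintro ⟨hv, hm⟩
        obtain ⟨j, hj⟩ := Set.mem_iUnion.1 hm
        exact Set.mem_iUnion.2 ⟨j, hv, hj⟩
    have hkU : k ∉ Ns (⋃ j, C j) := by
      rw [← eN]
      intro h
      obtain ⟨j, hj⟩ := Set.mem_iUnion.1 h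
      exact hk j hj
    have j0 : Om := ⟨0, Ordinal.omega_pos 1⟩
    have hbN : b ∈ Ns (⋃ j, C j) := Set.mem_iUnion.2 ⟨j0, hbC j0⟩
    have htN : t ∈ Ns (⋃ j, C j) := Set.mem_iUnion.2 ⟨j0, htC j0⟩
    have hbk : b < k := lt_of_le_of_ne (hb k) (fun h => hkU (h ▸ hbN))
    have hkt : k < t := lt_of_le_of_ne (ht k) (fun h => hkU (h ▸ htN))
    have hclU := RS_cl hS ⟨b, hbN⟩
    have hclU' : Cl h f (⋃ j, Gs (C j)) (⋃ j, Es (C j)) (⋃ j, Ns (C j)) := by
      rw [eN, eG, eE]; exact hclU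
    have hnextL : ∀ j, ∀ z ∈ Ns (C j), ∀ a, IsLUB (Ns (C j) ∩ Iio z) a → a ∈ ⋃ j, Ns (C j) := by
      intro j z hz a ha
      obtain ⟨j', hj'⟩ := hCn j
      exact Set.mem_iUnion.2 ⟨j', hj' ⟨a, rfl, z, hz, Or.inl ha⟩⟩
    have hnextG : ∀ j, ∀ z ∈ Ns (C j), ∀ a, IsGLB (Ns (C j) ∩ Ioi z) a → a ∈ ⋃ j, Ns (C j) := by
      intro j z hz a ha
      obtain ⟨j', hj'⟩ := hCn j
      exact Set.mem_iUnion.2 ⟨j', hj' ⟨a, rfl, z, hz, Or.inr ha⟩⟩
    have hml := main_lemma hc hi hf hfs hd hclU (RS_lub hS) hkU ⟨b, hbN, hbk⟩ ⟨t, htN, hkt⟩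
      (by
        intro n hn hnk
        by_contra hcon
        push Not at hcon
        have hup : ∀ m ∈ Ns (⋃ j, C j), n < m → k ≤ m := by
          intro m hm hnm
          by_contra hmk
          exact absurd (hcon m hm hnm) hmk
        obtain ⟨a, ha⟩ := exists_glb (Ns (⋃ j, C j) ∩ Ioi n) ⟨t, htN, hnk.trans hkt⟩
        have hka : k ≤ a := ha.2 fun m hm => hup m hm.1 hm.2
        have haN : a ∈ ⋃ j, Ns (C j) := limit_mem' hc hi hf hfs hd hGm hNm hcl hclU' Om_bdd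
          hnextG (z := n) (a := a) (by rw [eN]; exact hn)
          ⟨t, by rw [eN]; exact htN, hnk.trans hkt⟩ (by rw [eN]; exact ha) (hnk.trans_le hka)
        rw [eN] at haN
        have hka' : k < a := lt_of_le_of_ne hka (fun h => hkU (h ▸ haN))
        obtain ⟨x, hx, hx1, hx2⟩ := hclU.exists_between hf hfs hd hn haN hnk hka'
        exact absurd (ha.1 ⟨hclU.img x hx, hx1⟩) (not_le_of_gt hx2))
      (by
        intro n hn hnk
        by_contra hcon
        push Not at hcon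
        have hup : ∀ m ∈ Ns (⋃ j, C j), m < n → m ≤ k := by
          intro m hm hnm
          by_contra hmk
          exact absurd hnm (not_lt_of_ge (hcon m hm (lt_of_not_ge hmk)))
        obtain ⟨a, ha⟩ := exists_lub (Ns (⋃ j, C j) ∩ Iio n) ⟨b, hbN, hbk.trans hnk⟩
        have hka : a ≤ k := ha.2 fun m hm => hup m hm.1 hm.2
        have haN : a ∈ ⋃ j, Ns (C j) := limit_mem hc hi hf hfs hd hGm hNm hcl hclU' Om_bdd
          hnextL (z := n) (a := a) (by rw [eN]; exact hn)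
          ⟨b, by rw [eN]; exact hbN, hbk.trans hnk⟩ (by rw [eN]; exact ha) (hka.trans_lt hnk)
        rw [eN] at haN
        have hka' : a < k := lt_of_le_of_ne hka (fun h => hkU (h ▸ haN))
        obtain ⟨x, hx, hx1, hx2⟩ := hclU.exists_between hf hfs hd haN hn hka' hnk
        exact absurd (ha.1 ⟨hclU.img x hx, hx2⟩) (not_le_of_gt hx1))
    obtain ⟨m, hm, hm'⟩ := (lt_isLUB_iff hml.1).1 hu
    refine ⟨m, ?_, hm', hm.2⟩
    have hm1 := hm.1
    rw [← eN] at hm1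
    obtain ⟨j, hj⟩ := Set.mem_iUnion.1 hm1
    exact ⟨j, hj⟩


end Pool.Agent.Lib_MP_e33218_ins
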